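import Pool.Agent.helper32.PN.Spec

/-! PN (MP_405bd9_al), row PHI: number of paths to the states with a long column. -/

set_option autoImplicit false

namespace Pool.Agent.PN

open Module Polynomial Pool.Agent.helper27.PC

theorem PHI_mem (s : Bool) (K m h : ℕ) (T : St) (u : Bool) (p : ℕ) :
    (u, p) ∈ emb s K m h T ↔ (u, p) ≠ (s, h) ∧ (p < m - K ∨ (m - K ≤ p ∧ (u, p - (m - K)) ∈ T)) := by
  unfold emb ext
  rw [Finset.mem_erase, Finset.mem_union, Finset.mem_product, Finset.mem_image]
  constructor
  · rintro ⟨h1, h2⟩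
    refine ⟨h1, ?_⟩
    rcases h2 with h2 | ⟨y, hy, hy2⟩
    · left
      simpa using h2
    · right
      unfold up at hy2
      rw [Prod.mk.injEq] at hy2
      obtain ⟨h3, h4⟩ := hy2
      refine ⟨by omega, ?_⟩
      have : (u, p - (m - K)) = y := by
        ext
        · exact h3.symm
        · show p - (m - K) = y.2
          omega
      rw [this]
      exact hy
  · rintro ⟨h1, h2⟩
    refine ⟨h1, ?_⟩
    rcases h2 with h2 | ⟨h2, h3⟩
    · left
      simpa using h2
    · right
      refine ⟨_, h3, ?_⟩
      unfold up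
      ext
      · rfl
      · show p - (m - K) + (m - K) = p
        omega

theorem PHI_memrem (S : St) (y z : Lab) : z ∈ rem 1 S y ↔ z = dn 1 y ∨ (z ≠ y ∧ z ∈ S) := by
  unfold rem
  rw [Finset.mem_insert, Finset.mem_erase]

theorem PHI_memremv (S : St) (y : Lab) : y ∈ remv 1 S ↔ y ∈ S ∧ 1 ≤ y.2 ∧ dn 1 y ∉ S := by
  unfold remv
  rw [Finset.mem_filter]

theorem PHI_out (s : Bool) (K m h : ℕ) (T : St) (hm : h + K < m) (y : Lab) (hy : y ∈ remv 1 T) :
    up (m - K) y ∈ remv 1 (emb s K m h T) ∧
    rem 1 (emb s K m h T) (up (m - K) y) = emb s K m h (rem 1 T y) := by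
  obtain ⟨u, p⟩ := y
  rw [PHI_memremv] at hy
  obtain ⟨h1, h2, h3⟩ := hy
  have h2' : 1 ≤ p := h2
  have h3' : (u, p - 1) ∉ T := h3
  constructor
  · rw [PHI_memremv]
    refine ⟨?_, ?_, ?_⟩
    · show (u, p + (m - K)) ∈ emb s K m h T
      rw [PHI_mem]
      refine ⟨?_, Or.inr ⟨by omega, ?_⟩⟩
      · intro hc
        rw [Prod.mk.injEq] at hc
        omega
      · rw [Nat.add_sub_cancel]
        exact h1
    · show 1 ≤ p + (m - K)
      omega
    · show (u, p + (m - K) - 1) ∉ emb s K m h T
      rw [PHI_mem]
      rintro ⟨-, h4 | ⟨-, h4⟩⟩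
      · omega
      · have : p + (m - K) - 1 - (m - K) = p - 1 := by omega
        rw [this] at h4
        exact h3' h4
  · ext ⟨v, r⟩
    rw [PHI_memrem, PHI_mem, PHI_mem, PHI_memrem]
    have e1 : dn 1 (up (m - K) (u, p)) = (u, p + (m - K) - 1) := rfl
    have e2 : dn 1 ((u, p) : Lab) = (u, p - 1) := rfl
    have e3 : up (m - K) ((u, p) : Lab) = (u, p + (m - K)) := rfl
    rw [e1, e2, e3]
    simp only [Prod.mk.injEq, ne_eq]
    by_cases hv : v = u
    · subst hv
      simp only [true_and]
      by_cases hr : m - K ≤ r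
      · have ha : r = p + (m - K) - 1 ↔ r - (m - K) = p - 1 := by omega
        have hb : r = p + (m - K) ↔ r - (m - K) = p := by omega
        have hc : ¬ (v = s ∧ r = h) := by
          rintro ⟨-, h5⟩
          omega
        have hd : ¬ r < m - K := by omega
        rw [ha, hb]
        tauto
      · have ha : ¬ r = p + (m - K) - 1 := by omega
        have hb : ¬ r = p + (m - K) := by omega
        have hc : r < m - K := by omega
        tauto
    · have : ¬ (v = u ∧ r = p + (m - K) - 1) := fun h => hv h.1
      tauto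

theorem PHI_col (s : Bool) (K m h : ℕ) (T : St) (hm : h + 1 + K < m) :
    (s, h + 1) ∈ remv 1 (emb s K m h T) ∧ rem 1 (emb s K m h T) (s, h + 1) = emb s K m (h + 1) T := by
  constructor
  · rw [PHI_memremv]
    refine ⟨?_, ?_, ?_⟩
    · rw [PHI_mem]
      refine ⟨?_, Or.inl (by omega)⟩
      intro hc
      rw [Prod.mk.injEq] at hc
      omega
    · show 1 ≤ h + 1
      omega
    · show (s, h + 1 - 1) ∉ emb s K m h T
      rw [PHI_mem]
      rintro ⟨h4, -⟩
      exact h4 rfl
  · ext ⟨v, r⟩
    rw [PHI_memrem, PHI_mem, PHI_mem]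
    have e1 : dn 1 ((s, h + 1) : Lab) = (s, h) := rfl
    rw [e1]
    simp only [Prod.mk.injEq, ne_eq]
    by_cases hv : v = s
    · subst hv
      simp only [true_and]
      by_cases hr : r = h
      · have h1 : ¬ r = h + 1 := by omega
        have h2 : r < m - K := by omega
        tauto
      · tauto
    · tauto

theorem PHI_zero (hNPR : NPR_stmt) (s : Bool) (m : ℕ) : ∀ H h : ℕ, h + (H + 1) = m →
    1 ≤ np (H + 1) (vac m) ((base s m).erase (s, h)) := by
  intro H
  induction H with
  | zero =>
    intro h hh
    have e : (base s m).erase (s, h) = insert (s, m) ((vac m).erase (s, h)) := by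
      unfold base
      rw [Finset.erase_insert_of_ne]
      intro hc
      rw [Prod.mk.injEq] at hc
      omega
    have hy : (s, m) ∈ remv 1 ((base s m).erase (s, h)) := by
      rw [PHI_memremv, e]
      refine ⟨Finset.mem_insert_self _ _, ?_, ?_⟩
      · show 1 ≤ m
        omega
      · show (s, m - 1) ∉ _
        have : m - 1 = h := by omega
        rw [this]
        intro hc
        rw [Finset.mem_insert, Finset.mem_erase] at hc
        rcases hc with hc | hc
        · rw [Prod.mk.injEq] at hc
          omega
        · exact hc.1 rfl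
    have hr : rem 1 ((base s m).erase (s, h)) (s, m) = vac m := by
      unfold rem
      have e1 : dn 1 ((s, m) : Lab) = (s, h) := by
        show (s, m - 1) = (s, h)
        have : m - 1 = h := by omega
        rw [this]
      rw [e, e1, Finset.erase_insert, Finset.insert_erase]
      · unfold vac
        rw [Finset.mem_product]
        exact ⟨Finset.mem_univ _, Finset.mem_range.mpr (by omega)⟩
      · intro hc
        rw [Finset.mem_erase] at hc
        have := hc.2
        unfold vac at this
        rw [Finset.mem_product, Finset.mem_range] at this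
        have h2 : m < m := this.2
        omega
    rw [(hNPR 0 (vac m) _).1]
    have hn : np 0 (vac m) (rem 1 ((base s m).erase (s, h)) (s, m)) = 1 := by
      rw [hr]
      unfold np paths
      simp
    calc 1 = np 0 (vac m) (rem 1 ((base s m).erase (s, h)) (s, m)) := hn.symm
      _ ≤ _ := Finset.single_le_sum (f := fun y => np 0 (vac m) (rem 1 ((base s m).erase (s, h)) y)) (fun _ _ => Nat.zero_le _) hy
  | succ H ih =>
    intro h hh
    have hmem : ∀ r, r < m → ((s, r) : Lab) ∈ base s m := by
      intro r hr
      unfold base vac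
      rw [Finset.mem_insert, Finset.mem_product]
      exact Or.inr ⟨Finset.mem_univ _, Finset.mem_range.mpr hr⟩
    have hy : (s, h + 1) ∈ remv 1 ((base s m).erase (s, h)) := by
      rw [PHI_memremv, Finset.mem_erase]
      refine ⟨⟨?_, hmem _ (by omega)⟩, ?_, ?_⟩
      · intro hc
        rw [Prod.mk.injEq] at hc
        omega
      · show 1 ≤ h + 1
        omega
      · show (s, h + 1 - 1) ∉ _
        intro hc
        rw [Finset.mem_erase] at hc
        exact hc.1 rfl
    have hr : rem 1 ((base s m).erase (s, h)) (s, h + 1) = (base s m).erase (s, h + 1) := by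
      ext z
      rw [PHI_memrem, Finset.mem_erase, Finset.mem_erase]
      have e1 : dn 1 ((s, h + 1) : Lab) = (s, h) := rfl
      rw [e1]
      by_cases hz : z = (s, h)
      · have h1 : z ≠ (s, h + 1) := by
          rw [hz]
          intro hc
          rw [Prod.mk.injEq] at hc
          omega
        have h2 : z ∈ base s m := by
          rw [hz]
          exact hmem _ (by omega)
        tauto
      · tauto
    rw [(hNPR (H + 1) (vac m) _).1]
    calc 1 ≤ np (H + 1) (vac m) (rem 1 ((base s m).erase (s, h)) (s, h + 1)) := by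
          rw [hr]
          exact ih (h + 1) (by omega)
      _ ≤ _ := Finset.single_le_sum (f := fun y => np (H + 1) (vac m) (rem 1 ((base s m).erase (s, h)) y)) (fun _ _ => Nat.zero_le _) hy

theorem PHI_ext0 (s : Bool) (K m : ℕ) (hm : K < m) : ext K m (base s K) = base s m := by
  ext ⟨u, p⟩
  unfold ext base vac
  simp only [Finset.mem_union, Finset.mem_product, Finset.mem_univ, true_and, Finset.mem_range,
    Finset.mem_image, Finset.mem_insert, Prod.mk.injEq]
  constructor
  · rintro (h | ⟨⟨v, r⟩, h1, h2⟩)
    · right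
      omega
    · unfold up at h2
      rw [Prod.mk.injEq] at h2
      obtain ⟨h3, h4⟩ := h2
      simp only at h3 h4 h1
      rcases h1 with h1 | h1
      · rw [Prod.mk.injEq] at h1
        left
        refine ⟨h3.symm.trans h1.1, by omega⟩
      · right
        omega
  · rintro (⟨h1, h2⟩ | h1)
    · right
      refine ⟨(s, K), Or.inl rfl, ?_⟩
      unfold up
      rw [Prod.mk.injEq]
      exact ⟨h1.symm, by show K + (m - K) = p; omega⟩
    · by_cases hp : p < m - K
      · left
        exact hp
      · right
        refine ⟨(u, p - (m - K)), Or.inr (by show p - (m - K) < K; omega), ?_⟩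
        unfold up
        rw [Prod.mk.injEq]
        exact ⟨rfl, by show p - (m - K) + (m - K) = p; omega⟩

theorem PHI_low (hNPR : NPR_stmt) (s : Bool) (K m : ℕ) : ∀ i : ℕ, ∀ T : St, T ∈ ends i (base s K) →
    ∀ H h : ℕ, h + K + 1 + H = m → (H + i).choose i * np i (base s K) T ≤ np (K + 1 + H + i) (vac m) (emb s K m h T) := by
  intro i
  induction i with
  | zero =>
    intro T hT H h hh
    have hT' : T = base s K := by
      unfold ends at hT
      exact Finset.mem_singleton.mp hT
    subst hT'
    have e1 : np 0 (base s K) (base s K) = 1 := by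
      unfold np paths
      simp
    have e2 : emb s K m h (base s K) = (base s m).erase (s, h) := by
      unfold emb
      rw [PHI_ext0 s K m (by omega)]
    rw [e1, e2, Nat.choose_zero_right, mul_one, add_zero]
    have := PHI_zero hNPR s m (K + H) h (by omega)
    have e3 : K + 1 + H = K + H + 1 := by omega
    rw [e3]
    exact this
  | succ i ih =>
    intro T hT H
    have hsum : ∀ h : ℕ, h + K < m → ∀ N : ℕ, ∑ y ∈ remv 1 T, np N (vac m) (emb s K m h (rem 1 T y)) ≤
        ∑ y ∈ (remv 1 (emb s K m h T)).filter (fun y => m - K ≤ y.2), np N (vac m) (rem 1 (emb s K m h T) y) := by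
      intro h hh N
      have hinj : Set.InjOn (up (m - K)) (remv 1 T : Set Lab) := by
        intro y _ y' _ hyy
        unfold up at hyy
        rw [Prod.mk.injEq] at hyy
        exact Prod.ext hyy.1 (by omega)
      have hsub : (remv 1 T).image (up (m - K)) ⊆ (remv 1 (emb s K m h T)).filter (fun y => m - K ≤ y.2) := by
        intro y hy
        rw [Finset.mem_image] at hy
        obtain ⟨y', hy', rfl⟩ := hy
        rw [Finset.mem_filter]
        exact ⟨(PHI_out s K m h T hh y' hy').1, by show m - K ≤ y'.2 + (m - K); omega⟩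
      calc ∑ y ∈ remv 1 T, np N (vac m) (emb s K m h (rem 1 T y))
          = ∑ y ∈ remv 1 T, np N (vac m) (rem 1 (emb s K m h T) (up (m - K) y)) :=
            Finset.sum_congr rfl fun y hy => by rw [(PHI_out s K m h T hh y hy).2]
        _ = ∑ y ∈ (remv 1 T).image (up (m - K)), np N (vac m) (rem 1 (emb s K m h T) y) := by
            rw [Finset.sum_image hinj]
        _ ≤ _ := Finset.sum_le_sum_of_subset hsub
    have hT2 : ∀ N H' h : ℕ, h + K + 1 + H' = m → N = K + 1 + H' + i →
        (H' + i).choose i * np (i + 1) (base s K) T ≤ ∑ y ∈ remv 1 T, np N (vac m) (emb s K m h (rem 1 T y)) := by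
      intro N H' h hh hN
      rw [(hNPR i (base s K) T).1, Finset.mul_sum]
      refine Finset.sum_le_sum fun y _ => ?_
      by_cases hz : rem 1 T y ∈ ends i (base s K)
      · rw [hN]
        exact ih _ hz H' h hh
      · have : np i (base s K) (rem 1 T y) = 0 := by
          by_contra hc
          exact hz ((hNPR i (base s K) _).2.2.mpr hc)
        rw [this, mul_zero]
        exact Nat.zero_le _
    induction H with
    | zero =>
      intro h hh
      have h1 := hT2 (K + 1 + 0 + i) 0 h hh rfl
      have h2 := hsum h (by omega) (K + 1 + 0 + i)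
      have e : K + 1 + 0 + (i + 1) = (K + 1 + 0 + i) + 1 := by omega
      rw [e, (hNPR _ (vac m) _).1, zero_add, Nat.choose_self]
      rw [zero_add, Nat.choose_self] at h1
      refine (h1.trans h2).trans ?_
      exact Finset.sum_le_sum_of_subset (Finset.filter_subset _ _)
    | succ H ihH =>
      intro h hh
      have h1 := hT2 (K + 1 + (H + 1) + i) (H + 1) h hh rfl
      have h2 := hsum h (by omega) (K + 1 + (H + 1) + i)
      have h3 := ihH (h + 1) (by omega)
      have hc := PHI_col s K m h T (by omega)
      have e : K + 1 + (H + 1) + (i + 1) = (K + 1 + (H + 1) + i) + 1 := by omega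
      rw [e, (hNPR _ (vac m) _).1]
      have hsp : (s, h + 1) ∈ (remv 1 (emb s K m h T)).filter (fun y => ¬ m - K ≤ y.2) := by
        rw [Finset.mem_filter]
        exact ⟨hc.1, by show ¬ m - K ≤ h + 1; omega⟩
      have h4 : np (K + 1 + (H + 1) + i) (vac m) (rem 1 (emb s K m h T) (s, h + 1)) ≤
          ∑ y ∈ (remv 1 (emb s K m h T)).filter (fun y => ¬ m - K ≤ y.2), np (K + 1 + (H + 1) + i) (vac m) (rem 1 (emb s K m h T) y) :=
        Finset.single_le_sum (f := fun y => np (K + 1 + (H + 1) + i) (vac m) (rem 1 (emb s K m h T) y)) (fun _ _ => Nat.zero_le _) hsp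
      rw [hc.2] at h4
      rw [← Finset.sum_filter_add_sum_filter_not (remv 1 (emb s K m h T)) (fun y => m - K ≤ y.2)]
      have e5 : K + 1 + H + (i + 1) = K + 1 + (H + 1) + i := by omega
      rw [e5] at h3
      have hpas : (H + 1 + (i + 1)).choose (i + 1) = (H + 1 + i).choose i + (H + (i + 1)).choose (i + 1) := by
        have : H + 1 + (i + 1) = (H + 1 + i) + 1 := by omega
        rw [this, Nat.choose_succ_succ]
        have : H + (i + 1) = H + 1 + i := by omega
        rw [this]
      rw [hpas, add_mul]
      exact add_le_add (h1.trans h2) (h3.trans h4)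

theorem PHI (hNPR : NPR_stmt) (hPFU : PFU_stmt) (hEXTI : EXTI_stmt) : PHI_stmt := by
  intro s K m h i T hiK hm hT
  obtain ⟨H, hH⟩ : ∃ H, h + K + 1 + H = m := ⟨m - (h + K + 1), by omega⟩
  have hlow := PHI_low hNPR s K m i T hT H h hH
  have e1 : K + 1 + H + i = m - h + i := by omega
  have e2 : H + i = m - h + i - (K + 1) := by omega
  rw [e1, e2] at hlow
  have hnp : np i (base s K) T ≠ 0 := (hNPR i (base s K) T).2.2.mp hT
  have hch : (m - h + i - (K + 1)).choose i ≠ 0 := by
    have : i ≤ m - h + i - (K + 1) := by omega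
    exact (Nat.choose_pos this).ne'
  have hne : np (m - h + i) (vac m) (emb s K m h T) ≠ 0 := by
    intro hc
    rw [hc] at hlow
    have := Nat.eq_zero_of_le_zero hlow
    rcases Nat.mul_eq_zero.mp this with h1 | h1
    · exact hch h1
    · exact hnp h1
  have hends : emb s K m h T ∈ ends (m - h + i) (vac m) := (hNPR _ _ _).2.2.mpr hne
  refine ⟨hends, hlow, ?_⟩
  have hn1 : (s, h) ∉ emb s K m h T := by
    unfold emb
    exact Finset.notMem_erase _ _
  have hn2 : ∀ p < h, (s, p) ∈ emb s K m h T := by
    intro p hp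
    rw [PHI_mem]
    refine ⟨?_, Or.inl (by omega)⟩
    intro hc
    rw [Prod.mk.injEq] at hc
    omega
  have hP := hPFU s m (m - h + i) h (emb s K m h T) hends hn1 hn2
  have e3 : m - h + i + h - m = i := by omega
  have e4 : insert (s, h) (emb s K m h T) = ext K m T := by
    unfold emb
    rw [Finset.insert_erase]
    unfold ext
    rw [Finset.mem_union, Finset.mem_product]
    exact Or.inl ⟨Finset.mem_univ _, Finset.mem_range.mpr (by show h < m - K; omega)⟩
  rw [e3, e4] at hP
  have hE := ((hEXTI s K m i hiK (by omega)).1 T hT).2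
  rw [hE] at hP
  exact hP.2.2.2

end Pool.Agent.PN
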